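import Pool.Agent.BorelPcf.Iter

universe u

open Cardinal Ordinal Set Pool.Agent.Helper6.Pcf Pool.Agent.BorelPcf

/-- Let `mu > 2 ^ ℵ₀` be a cardinal of cofinality `ℵ₀` and let `lam` be the true cofinality of
the product of a countable family `L` of regular cardinals, unbounded in `mu`, modulo a proper
ideal containing the bounded sets. Then there is a strictly increasing sequence `s` of length `ω`
of members of the family with supremum `mu` such that `lam` is in the spectrum of `s` (the set of
true cofinalities of the product of `s` modulo proper ideals containing the bounded sets) and such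
that every `th` in the spectrum of `s` is the true cofinality of the product of `s` modulo a
proper ideal `K` containing the bounded sets with these properties. The ideal `K` is Borel (it
belongs to the product sigma-algebra of the power set of the countable index set). It arises by
iterating the ideal of bounded sets (`Iter`). In every set `Y` outside `K` and for every function
`h : ℕ → ℕ` tending to infinity there are finite sets `B 0 < B 1 < ...` with at most `h k` members
in `B k` such that no union of infinitely many of the sets `B k` is in `K`. -/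
theorem Pool.Agent.Results.MP_47ac62_lc.BorelIdeal.result
    (mu lam : Cardinal.{u}) (hcof : mu.ord.cof = Cardinal.aleph0.{u})
    (hmu : (2 : Cardinal.{u}) ^ Cardinal.aleph0.{u} < mu)
    (I : Type u) (L : I → Cardinal.{u}) (J : Set (Set I))
    (hrep : IsRep Cardinal.aleph0.{u} mu lam L J) :
    ∃ s : (Cardinal.aleph0.{u}).ord.ToType → Cardinal.{u},
      StrictMono s ∧ (∀ i, s i ∈ Set.range L) ∧ IsLUB (Set.range s) mu ∧
      (∃ K' : Set (Set (Cardinal.aleph0.{u}).ord.ToType), IsKIdeal Cardinal.aleph0.{u} K' ∧
        Jbd (Cardinal.aleph0.{u}).ord.ToType ⊆ K' ∧ TCF s K' lam) ∧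
      ∀ th : Cardinal.{u},
        (∃ K' : Set (Set (Cardinal.aleph0.{u}).ord.ToType), IsKIdeal Cardinal.aleph0.{u} K' ∧
          Jbd (Cardinal.aleph0.{u}).ord.ToType ⊆ K' ∧ TCF s K' th) →
        ∃ K : Set (Set (Cardinal.aleph0.{u}).ord.ToType),
          IsKIdeal Cardinal.aleph0.{u} K ∧ Jbd (Cardinal.aleph0.{u}).ord.ToType ⊆ K ∧
          TCF s K th ∧ MeasurableSet K ∧ Iter mu s th K ∧
          ∀ Y : Set (Cardinal.aleph0.{u}).ord.ToType, Y ∉ K →
            ∀ h : ℕ → ℕ, Filter.Tendsto h Filter.atTop Filter.atTop →
              ∃ B : ℕ → Finset (Cardinal.aleph0.{u}).ord.ToType,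
                (∀ k, (B k).card ≤ h k ∧
                  (B k : Set (Cardinal.aleph0.{u}).ord.ToType) ⊆ Y) ∧
                (∀ j k, j < k → ∀ x ∈ B j, ∀ y ∈ B k, x < y) ∧
                ∀ D : Set ℕ, D.Infinite →
                  (⋃ k ∈ D, (B k : Set (Cardinal.aleph0.{u}).ord.ToType)) ∉ K :=
  borel_ideal mu lam hcof hmu I L J hrep
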