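import Pool.Agent.PcfInc.ThmB

universe u

open Cardinal Ordinal Set Pool.Agent.Helper6.Pcf Pool.Agent.PcfInc

/-- Let `mu > 2 ^ ℵ₀` be a cardinal of cofinality `ℵ₀`, let `nu` be smaller than the bounding
number, and let `lam` be the true cofinality of the product of a countable family `L` of regular
cardinals, unbounded in `mu`, modulo a proper ideal containing the bounded sets. Then either
`lam` is the true cofinality, modulo bounded sets, of a strictly increasing sequence of length
`ω` of members of the family with supremum `mu`, or for some `th ≤ lam` in the spectrum of the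
family (the set of true cofinalities of its product modulo proper ideals containing the bounded
sets) there are more than `nu` many cardinals `chi` of cofinality `ℵ₀` strictly between `mu` and
`th` at which `th` is represented in the same way by a family of members of the spectrum; in
this case the spectrum has more than `nu` members. -/
theorem Pool.Agent.Results.MP_47ac62_lc.BoundingNumber.result
    (mu lam nu : Cardinal.{u}) (hcof : mu.ord.cof = Cardinal.aleph0.{u})
    (hmu : (2 : Cardinal.{u}) ^ Cardinal.aleph0.{u} < mu)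
    (hnu : ∀ F : Set (ℕ → ℕ), Cardinal.lift.{u} (Cardinal.mk F) ≤ nu →
      ∃ g : ℕ → ℕ, ∀ f ∈ F, ∃ m, ∀ n, m < n → f n ≤ g n)
    (I : Type u) (L : I → Cardinal.{u}) (J : Set (Set I))
    (hrep : IsRep Cardinal.aleph0.{u} mu lam L J) :
    (∃ s : (Cardinal.aleph0.{u}).ord.ToType → Cardinal.{u}, StrictMono s ∧
      (∀ i, s i ∈ Set.range L) ∧ IsLUB (Set.range s) mu ∧
      TCF s (Jbd (Cardinal.aleph0.{u}).ord.ToType) lam) ∨
    ∃ th : Cardinal.{u}, th ≤ lam ∧ (∃ J' : Set (Set I), IsRep Cardinal.aleph0.{u} mu th L J') ∧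
      Cardinal.lift.{u + 1} nu < Cardinal.mk {chi : Cardinal.{u} | mu < chi ∧ chi < th ∧
        chi.ord.cof = Cardinal.aleph0.{u} ∧
        ∃ (T : Type u) (f : T → Cardinal.{u}) (J' : Set (Set T)),
          IsRep Cardinal.aleph0.{u} chi th f J' ∧
          ∀ t, ∃ J'' : Set (Set I), IsRep Cardinal.aleph0.{u} mu (f t) L J''} ∧
      Cardinal.lift.{u + 1} nu < Cardinal.mk {th' : Cardinal.{u} |
        ∃ J' : Set (Set I), IsRep Cardinal.aleph0.{u} mu th' L J'} := by
  by_contra hcon
  rw [not_or] at hcon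
  obtain ⟨h1, h2⟩ := hcon
  apply h1
  obtain ⟨nu', hle, hinf, hB⟩ : ∃ nu' : Cardinal.{u}, nu ≤ nu' ∧ Cardinal.aleph0.{u} ≤ nu' ∧
      Bnd Cardinal.aleph0.{u} nu' := by
    rcases le_or_gt Cardinal.aleph0.{u} nu with h | h
    · exact ⟨nu, le_rfl, h, Bnd_of_nat hnu⟩
    · exact ⟨Cardinal.aleph0.{u}, h.le, le_rfl, Bnd_self Cardinal.isRegular_aleph0⟩
  refine theoremB rfl Cardinal.isRegular_aleph0 hcof hmu hinf hB L lam ⟨J, hrep⟩
    (fun th hth hsp => ?_)
  by_contra h3
  rw [not_le] at h3
  have h4 : Cardinal.lift.{u + 1} nu < Cardinal.mk (XS Cardinal.aleph0.{u} mu th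
      (Spec Cardinal.aleph0.{u} mu L)) := lt_of_le_of_lt (Cardinal.lift_le.2 hle) h3
  exact h2 ⟨th, hth, hsp, h4, lt_of_lt_of_le h4 (XS_le hsp)⟩
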