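import Pool.Agent.PcfInc.Main

universe u

open Cardinal Ordinal Set Pool.Agent.Helper6.Pcf

/-- Let `kappa` be regular, `mu > 2 ^ kappa` singular of cofinality `kappa`, and for `d` in a
nonempty set `D` of size at most `kappa` let `lam d` be the true cofinality of the product of a
family `L d` of `kappa` many regular cardinals, unbounded in `mu`, modulo a `kappa`-complete
proper ideal containing the bounded sets. Then there is one strictly increasing sequence `s` of
length `kappa` of members of these families, with supremum `mu`, such that every `lam d` is the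
true cofinality of the product of `s` modulo a `kappa`-complete proper ideal `K`, with these
properties. The ideal `K` contains the bounded sets and is generated over them by at most
`kappa + #X` many sets, where `X` is the set of all `chi` of cofinality `kappa` strictly between
`mu` and `lam d` at which `lam d` is represented by true cofinalities of the product of `s`
modulo `kappa`-complete proper ideals containing the bounded sets. The ideal `K` is compact: if
each subfamily of size at most `kappa` of a subfamily `W` of `K` has a bound in `K` modulo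
bounded sets, then `W` has a bound in `K` modulo bounded sets. -/
theorem Pool.Agent.Results.MP_47ac62_lc.IncreasingRepresentation.result
    (kappa mu : Cardinal.{u}) (hk : kappa.IsRegular) (hcof : mu.ord.cof = kappa)
    (hmu : (2 : Cardinal.{u}) ^ kappa < mu) (D : Type u) (hD : Cardinal.mk D ≤ kappa)
    (hne : Nonempty D) (lam : D → Cardinal.{u}) (I : D → Type u) (L : ∀ d, I d → Cardinal.{u})
    (J : ∀ d, Set (Set (I d))) (hrep : ∀ d, IsRep kappa mu (lam d) (L d) (J d)) :
    ∃ s : kappa.ord.ToType → Cardinal.{u}, StrictMono s ∧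
      (∀ i, ∃ d, s i ∈ Set.range (L d)) ∧ IsLUB (Set.range s) mu ∧
      ∀ d, ∃ K G : Set (Set kappa.ord.ToType), IsKIdeal kappa K ∧ TCF s K (lam d) ∧
        (G ⊆ K ∧ Jbd kappa.ord.ToType ⊆ K ∧
          ∀ X ∈ K, ∃ S : Set (Set kappa.ord.ToType), S ⊆ G ∧ Cardinal.mk S < kappa ∧
            ∃ Y ∈ Jbd kappa.ord.ToType, X ⊆ Y ∪ ⋃₀ S) ∧
        Cardinal.lift.{u + 1} (Cardinal.mk G) ≤ Cardinal.lift.{u + 1} kappa +
          Cardinal.mk {chi : Cardinal.{u} | mu < chi ∧ chi < lam d ∧ chi.ord.cof = kappa ∧
            ∃ (T : Type u) (f : T → Cardinal.{u}) (J' : Set (Set T)),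
              IsRep kappa chi (lam d) f J' ∧ ∀ t, ∃ K' : Set (Set kappa.ord.ToType),
                IsKIdeal kappa K' ∧ Jbd kappa.ord.ToType ⊆ K' ∧ TCF s K' (f t)} ∧
        ∀ W : Set (Set kappa.ord.ToType), W ⊆ K →
          (∀ W' : Set (Set kappa.ord.ToType), W' ⊆ W → Cardinal.mk W' ≤ kappa →
            ∃ z ∈ K, ∀ w ∈ W', w \ z ∈ Jbd kappa.ord.ToType) →
          ∃ E ∈ K, ∀ w ∈ W, w \ E ∈ Jbd kappa.ord.ToType :=
  Pool.Agent.PcfInc.main_inc kappa mu hk hcof hmu D hD hne lam I L J hrep
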