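import Pool.Agent.PcfUnc.UncFinal

universe u

open Cardinal Ordinal Set Pool.Agent.Helper6.Pcf

/-- Let `kappa` be regular and uncountable, let `mu > 2 ^ kappa` be singular of cofinality
`kappa`, and let `lam` be the true cofinality of the product of a family `L` of `kappa` many
regular cardinals, unbounded in `mu`, modulo a `kappa`-complete proper ideal containing the
bounded sets. Fix `c < mu` and let `S` be the set of all true cofinalities, modulo arbitrary
proper ideals, of the subfamilies of `L` which have fewer than `kappa` members, all of them above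
`c`. Then one of the following holds. Either `lam` is the true cofinality, modulo bounded sets, of
a strictly increasing sequence of length `kappa` of members of `S` with supremum `mu`; or `lam`
itself is in `S`; or `lam` is the true cofinality, modulo bounded sets, of a strictly increasing
sequence of length `kappa` of members of `S` above `mu`, with a supremum `chi < lam`. So the first
alternative holds if `S` has no member `th` with `mu < th ≤ lam`. -/
theorem Pool.Agent.Results.MP_47ac62_lc.UncountableCofinality.result
    (kappa mu lam c : Cardinal.{u}) (hk : kappa.IsRegular) (hunc : Cardinal.aleph0 < kappa)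
    (hcof : mu.ord.cof = kappa) (hmu : (2 : Cardinal.{u}) ^ kappa < mu) (hc : c < mu)
    (I : Type u) (L : I → Cardinal.{u}) (J : Set (Set I)) (hrep : IsRep kappa mu lam L J)
    (S : Set Cardinal.{u})
    (hS : S = {th : Cardinal.{u} | ∃ (b : Set I) (K : Set (Set I)), Cardinal.mk b < kappa ∧
      (∀ x ∈ b, c < L x) ∧ IsKIdeal Cardinal.aleph0 K ∧ bᶜ ∈ K ∧ TCF L K th}) :
    (∃ s : kappa.ord.ToType → Cardinal.{u}, StrictMono s ∧ (∀ i, s i ∈ S) ∧
      IsLUB (Set.range s) mu ∧ TCF s (Jbd kappa.ord.ToType) lam) ∨
    lam ∈ S ∨
    ∃ (chi : Cardinal.{u}) (t : kappa.ord.ToType → Cardinal.{u}), mu < chi ∧ chi < lam ∧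
      StrictMono t ∧ (∀ i, mu < t i ∧ t i ∈ S) ∧ IsLUB (Set.range t) chi ∧
      TCF t (Jbd kappa.ord.ToType) lam := by
  subst hS
  exact Pool.Agent.PcfUnc.unc_final hk hunc hcof hmu L J hrep c hc
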